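import Pool.Agent.W719.AX.Stp
import Pool.Agent.W748.AR.CPD

/-!
Critical points for products, with the analyticity of zs: S_FIX → S_CPDX (project AX of helper719),
after the file CPD.lean of helper748.
-/

set_option autoImplicit false

namespace Pool.Agent.W52.AX

open Filter Topology Metric Set Pool.Agent.W711.HT Pool.Agent.W293.HT Pool.Agent.W719.AR
open Pool.Agent.W748.AR Pool.Agent.W719.AX
open scoped Real

section

variable {ρ τ κ c : ℝ} {s dl : ℂ → ℂ → ℂ}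

theorem cpdx (hFIX : S_FIX) : S_CPDX := by
  intro ρ τ κ c s dl hK Dn hDn
  obtain ⟨C₀, hC₀⟩ := hK.sbd
  have hρ0 := hK.hρ.1
  have hρ1 := hK.hρ.2
  have hτ0 := hK.hτ.1
  have hτρ := hK.hτ.2
  have hκ := hK.hκ.1
  have hc := hK.hc
  have hpi := Real.pi_pos
  have hU := isOpen_Rc (3 * ρ) (3 * τ)
  have h0 : (0 : ℂ) ∈ Rc (3 * ρ) (3 * τ) := zero_mem_Rc (by linarith) (by linarith)
  have hC00 : 0 ≤ C₀ := (norm_nonneg _).trans (hC₀ 0 h0 0 h0)
  set c' : ℝ := c / 2 with hc'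
  have hc'0 : 0 < c' := by positivity
  set D : ℝ := (Dn : ℝ) with hDdef
  have hD : 1 ≤ D := by rw [hDdef]; exact_mod_cast hDn
  have hD0 : 0 < D := by linarith
  set C' : ℝ := 8 * (1 + (2 * D + 1) * C₀) / τ ^ 2 with hC'
  have hC'1 : 1 ≤ C' := by
    rw [hC', le_div_iff₀ (by positivity)]
    have h1 : 0 ≤ (2 * D + 1) * C₀ := by positivity
    have h2 : τ ^ 2 ≤ 1 := by nlinarith
    linarith
  have hC'0 : 0 < C' := by linarith
  set ε₀ : ℝ := min (min (κ / 16) (c * τ ^ 2 / 16)) 1 with hε₀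
  have hε0 : 0 < ε₀ := lt_min (lt_min (by positivity) (by positivity)) one_pos
  have hε1 : ε₀ ≤ 1 := min_le_right _ _
  have hε2 : ε₀ ≤ c * τ ^ 2 / 16 := (min_le_left _ _).trans (min_le_right _ _)
  have hε3 : ε₀ ≤ κ / 16 := (min_le_left _ _).trans (min_le_left _ _)
  set C : ℝ := 1 / c' + 8 * π ^ 2 * C' + 10 * π with hC
  have hC0 : 0 < C := by positivity
  set M : ℝ := 2 * π * (4 * C' + 5 / τ + (4 * C' + 11) / (c' * ρ ^ 2)) + 16 * C / κ +
    2 * C * D / ε₀ with hM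
  have hM1 : 2 * π * (4 * C' + 5 / τ + (4 * C' + 11) / (c' * ρ ^ 2)) ≤ M := by
    have : 0 ≤ 16 * C / κ + 2 * C * D / ε₀ := by positivity
    linarith
  have hM2 : 16 * C / κ ≤ M := by
    have : 0 ≤ 2 * π * (4 * C' + 5 / τ + (4 * C' + 11) / (c' * ρ ^ 2)) + 2 * C * D / ε₀ := by
      positivity
    linarith
  have hM3 : 2 * C * D / ε₀ ≤ M := by
    have : 0 ≤ 2 * π * (4 * C' + 5 / τ + (4 * C' + 11) / (c' * ρ ^ 2)) + 16 * C / κ := by
      positivity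
    linarith
  have hM0 : 0 < M := lt_of_lt_of_le (by positivity) hM2
  refine ⟨ε₀, C, M, hε0, hε3, hC0, hM0, ?_, ?_⟩
  · rw [div_le_iff₀ hκ] at hM2
    rw [div_le_iff₀ hM0]
    linarith
  intro tn F ht hF hev hcl a ha
  obtain ⟨gh1, gh2⟩ := gh_mainD (t := (tn : ℝ)) hK hε1 hε2 hC₀ (Nat.cast_nonneg tn)
    (by rw [hDdef]; exact_mod_cast ht) hD hF hev (by
      intro ψ hψ
      have := hcl ψ hψ
      rwa [Complex.ofReal_natCast])
  set A : ℝ := a / (2 * π) with hA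
  have haR : 0 < |(a : ℝ)| := hM0.trans_le ha
  have ha0 : a ≠ 0 := by
    rintro rfl
    simp at haR
  have hAabs : |A| = |(a : ℝ)| / (2 * π) := by
    rw [hA, abs_div, abs_of_pos (by positivity : (0 : ℝ) < 2 * π)]
  have hAge : 4 * C' + 5 / τ + (4 * C' + 11) / (c' * ρ ^ 2) ≤ |A| := by
    rw [hAabs, le_div_iff₀ (by positivity)]
    linarith
  have hA0 : 0 < |A| := lt_of_lt_of_le (by positivity) hAge
  have hAne : A ≠ 0 := abs_pos.1 hA0
  have hA1 : 4 * C' ≤ |A| := by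
    have : 0 ≤ 5 / τ + (4 * C' + 11) / (c' * ρ ^ 2) := by positivity
    linarith
  have hA2 : 4 / |A| < τ := by
    have h1 : 5 / τ ≤ |A| := by
      have : 0 ≤ 4 * C' + (4 * C' + 11) / (c' * ρ ^ 2) := by positivity
      linarith
    rw [div_le_iff₀ hτ0] at h1
    rw [div_lt_iff₀ hA0]
    linarith
  have hA3 : (4 * C' + 10) / |A| < c' * ρ ^ 2 := by
    have h1 : (4 * C' + 11) / (c' * ρ ^ 2) ≤ |A| := by
      have : 0 ≤ 4 * C' + 5 / τ := by positivity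
      linarith
    rw [div_le_iff₀ (by positivity)] at h1
    rw [div_lt_iff₀ hA0]
    linarith
  have h5A : 5 / |A| ≤ C / |(a : ℝ)| := by
    rw [hAabs, div_div_eq_mul_div]
    gcongr
    rw [hC]
    have : 0 ≤ 1 / c' + 8 * π ^ 2 * C' := by positivity
    linarith
  have hbsub : ball (0 : ℂ) (2 * (2 / |A|)) ⊆ Rc (3 * ρ) (3 * τ) := by
    intro w hw
    rw [mem_ball_zero_iff] at hw
    have : 2 * (2 / |A|) = 4 / |A| := by ring
    exact Rc_mono (by linarith) (by linarith) (mem_Rc_of_norm hτρ (by linarith : ‖w‖ < τ))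
  have hcbsub : closedBall (0 : ℂ) (2 / |A|) ⊆ Rc (3 * ρ) (3 * τ) := by
    refine Subset.trans (closedBall_subset_ball ?_) hbsub
    have : 0 < 2 / |A| := by positivity
    linarith
  have hRsub : Rc ρ τ ⊆ Rc (3 * ρ) (3 * τ) := Rc_mono (by linarith) (by linarith)
  have hsum : ∀ ψ ∈ Rc (3 * ρ) (3 * τ), ∀ w ∈ Rc (3 * ρ) (3 * τ),
      deriv (fun w => F w + s w ψ) w = deriv F w + deriv (fun w => s w ψ) w := by
    intro ψ hψ w hw
    exact deriv_fun_add (hF.differentiableAt (hU.mem_nhds hw))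
      ((s_diff1 hK hψ).differentiableAt (hU.mem_nhds hw))
  refine ⟨?_, ?_⟩
  · obtain ⟨zs, hzd, hz⟩ := hFIX
      (fun w ψ => -1 / A + Complex.I / A * (deriv F w + deriv (fun w => s w ψ) w))
      (2 / |A|) (Rc (3 * ρ) (3 * τ)) (by positivity) hU
      (by
        have e1 : DifferentiableOn ℂ (fun p : ℂ × ℂ => deriv F p.1)
            (ball 0 (2 * (2 / |A|)) ×ˢ Rc (3 * ρ) (3 * τ)) :=
          (hF.deriv hU).comp differentiableOn_fst (fun p hp => hbsub hp.1)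
        have e2 := (ds_joint hK).mono (prod_mono_left (t := Rc (3 * ρ) (3 * τ)) hbsub)
        exact ((e1.add e2).const_mul _).const_add _)
      (fun w hw ψ hψ => by
        have e1 := (phi_bound (gh1 ψ hψ) hτ0 hτρ hC'0 hA1 hA2).1 w hw
        rwa [hsum ψ hψ w (hcbsub hw)] at e1)
      (fun w hw w' hw' ψ hψ => by
        have e1 := (phi_bound (gh1 ψ hψ) hτ0 hτρ hC'0 hA1 hA2).2 w hw w' hw'
        rwa [hsum ψ hψ w (hcbsub hw), hsum ψ hψ w' (hcbsub hw')] at e1)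
    have hz3 : ∀ ψ ∈ Rc (3 * ρ) (3 * τ), zs ψ ∈ Rc (3 * ρ) (3 * τ) := fun ψ hψ =>
      hcbsub (mem_closedBall_zero_iff.2 (hz ψ hψ).1)
    have hcr : ∀ ψ ∈ Rc (3 * ρ) (3 * τ),
        Complex.I * A * zs ψ + Complex.I + (deriv F (zs ψ) + deriv (fun w => s w ψ) (zs ψ)) = 0 :=
      fun ψ hψ => crit_of_fix hAne (hz ψ hψ).2.1
    have hprops : ∀ ψ ∈ Rc (3 * ρ) (3 * τ), _ := fun ψ hψ =>
      crit_props (gh1 ψ hψ) hτ0 hτρ hρ1 hc'0 hC'1 a A hA hA1 hA2 hA3 (zs ψ) (hz ψ hψ).1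
        (by rw [hsum ψ hψ _ (hz3 ψ hψ)]; exact hcr ψ hψ)
    have hcr' : ∀ ψ ∈ Rc (3 * ρ) (3 * τ), Complex.I * a * zs ψ / (2 * π) + Complex.I +
        deriv F (zs ψ) + deriv (fun w => s w ψ) (zs ψ) = 0 := by
      intro ψ hψ
      rw [← hcr ψ hψ, hA]
      push_cast
      ring
    have hFp : ∀ ψ ∈ Rc (3 * ρ) (3 * τ),
        HasDerivAt (fun ψ => qq a F (zs ψ) + s (zs ψ) ψ) (deriv (fun w => s (zs ψ) w) ψ) ψ := by
      intro ψ hψ
      have hzψ := hz3 ψ hψ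
      have e1 : HasDerivAt zs (deriv zs ψ) ψ :=
        (hzd.differentiableAt (hU.mem_nhds hψ)).hasDerivAt
      have e2 : HasDerivAt (fun ψ => qq a F (zs ψ))
          ((Complex.I * a * zs ψ / (2 * π) + Complex.I + deriv F (zs ψ)) * deriv zs ψ) ψ :=
        HasDerivAt.comp ψ (hasDerivAt_qq a (hF.differentiableAt (hU.mem_nhds hzψ))) e1
      have e3 : DifferentiableAt ℂ (fun p : ℂ × ℂ => s p.1 p.2) (zs ψ, ψ) :=
        hK.san.differentiableAt ((hU.prod hU).mem_nhds ⟨hzψ, hψ⟩)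
      have e4 : HasDerivAt (fun ψ => s (zs ψ) ψ)
          (fderiv ℂ (fun p : ℂ × ℂ => s p.1 p.2) (zs ψ, ψ) (deriv zs ψ, 1)) ψ :=
        HasFDerivAt.comp_hasDerivAt (l := fun p : ℂ × ℂ => s p.1 p.2) (f := fun ψ => (zs ψ, ψ)) ψ
          e3.hasFDerivAt (e1.prodMk (hasDerivAt_id ψ))
      have e5 : fderiv ℂ (fun p : ℂ × ℂ => s p.1 p.2) (zs ψ, ψ) (1, 0) =
          deriv (fun w => s w ψ) (zs ψ) :=
        ((e3.hasFDerivAt.comp_hasDerivAt (zs ψ)
          ((hasDerivAt_id (zs ψ)).prodMk (hasDerivAt_const (zs ψ) ψ))).deriv).symm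
      have e6 : fderiv ℂ (fun p : ℂ × ℂ => s p.1 p.2) (zs ψ, ψ) (0, 1) =
          deriv (fun w => s (zs ψ) w) ψ :=
        ((e3.hasFDerivAt.comp_hasDerivAt ψ
          ((hasDerivAt_const ψ (zs ψ)).prodMk (hasDerivAt_id ψ))).deriv).symm
      have e7 : ((deriv zs ψ, 1) : ℂ × ℂ) = deriv zs ψ • ((1, 0) : ℂ × ℂ) + (0, 1) := by
        ext <;> simp
      refine (e2.add e4).congr_deriv ?_
      rw [e7, map_add, map_smul, e5, e6, smul_eq_mul]
      linear_combination (deriv zs ψ) * (hcr' ψ hψ)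
    have hest : ∀ ψ ∈ Rc (3 * ρ) (3 * τ),
        ‖(qq a F (zs ψ) + s (zs ψ) ψ) - F 0 - s 0 ψ‖ ≤ C / |(a : ℝ)| := by
      intro ψ hψ
      have e1 := (hprops ψ hψ).2.2.2.2
      have e2 : qq a (fun w => F w + s w ψ) (zs ψ) - (F 0 + s 0 ψ) =
          (qq a F (zs ψ) + s (zs ψ) ψ) - F 0 - s 0 ψ := by
        unfold qq
        ring
      rw [← e2]
      exact e1.trans h5A
    refine ⟨fun ψ => qq a F (zs ψ) + s (zs ψ) ψ, zs, ?_, hzd, ?_, ?_, hest, ?_⟩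
    · intro ψ hψ
      exact (hFp ψ hψ).differentiableAt.differentiableWithinAt
    · intro ψ hψ
      have hψ' := neg_mem_Rc hψ
      have e1 : zs (-ψ) = zs ψ := by
        refine (hz ψ hψ).2.2 _ (hz (-ψ) hψ').1 ?_
        have e2 := (hz (-ψ) hψ').2.1
        have e3 : deriv (fun w => s w (-ψ)) (zs (-ψ)) = deriv (fun w => s w ψ) (zs (-ψ)) :=
          d_congr hU (fun w hw => s_ev2 hK hw hψ) (hz3 (-ψ) hψ')
        simp only [e3] at e2
        exact e2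
      show qq a F (zs (-ψ)) + s (zs (-ψ)) (-ψ) = qq a F (zs ψ) + s (zs ψ) ψ
      rw [e1, s_ev2 hK (hz3 ψ hψ) hψ]
    · intro ψ hψ
      have e1 := hest ψ hψ
      have e2 := hest 0 h0
      have e3 : (qq a F (zs ψ) + s (zs ψ) ψ) - (qq a F (zs 0) + s (zs 0) 0) -
          (s 0 ψ - s 0 0) = ((qq a F (zs ψ) + s (zs ψ) ψ) - F 0 - s 0 ψ) -
            ((qq a F (zs 0) + s (zs 0) 0) - F 0 - s 0 0) := by ring
      show ‖(qq a F (zs ψ) + s (zs ψ) ψ) - (qq a F (zs 0) + s (zs 0) 0) -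
          (s 0 ψ - s 0 0)‖ ≤ ε₀ / D
      rw [e3]
      refine (norm_sub_le _ _).trans ?_
      have e4 : 2 * C * D / ε₀ ≤ |(a : ℝ)| := hM3.trans ha
      rw [div_le_iff₀ hε0] at e4
      have e5 : C / |(a : ℝ)| ≤ ε₀ / D / 2 := by
        rw [div_le_iff₀ haR, div_div, div_mul_eq_mul_div, le_div_iff₀ (by positivity)]
        linarith
      linarith
    · intro ψ hψ
      obtain ⟨p1, p2, p3, p4, p5⟩ := hprops ψ hψ
      exact ⟨cpt_of hA ha0 hc'0 hC'0 hC p1 p2 p3, p4, hcr' ψ hψ, rfl, hFp ψ hψ⟩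
  · intro ht1
    have g := gh2 (by exact_mod_cast ht1)
    obtain ⟨zs, -, hz⟩ := hFIX (fun w _ => -1 / A + Complex.I / A * deriv F w)
      (2 / |A|) (Rc (3 * ρ) (3 * τ)) (by positivity) hU
      (by
        have e1 : DifferentiableOn ℂ (fun p : ℂ × ℂ => deriv F p.1)
            (ball 0 (2 * (2 / |A|)) ×ˢ Rc (3 * ρ) (3 * τ)) :=
          (hF.deriv hU).comp differentiableOn_fst (fun p hp => hbsub hp.1)
        exact (e1.const_mul _).const_add _)
      (fun w hw ψ hψ => (phi_bound g hτ0 hτρ hC'0 hA1 hA2).1 w hw)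
      (fun w hw w' hw' ψ hψ => (phi_bound g hτ0 hτρ hC'0 hA1 hA2).2 w hw w' hw')
    obtain ⟨hz1, hz2, -⟩ := hz 0 h0
    have hcr := crit_of_fix hAne hz2
    obtain ⟨p1, p2, p3, p4, p5⟩ := crit_props g hτ0 hτρ hρ1 hc'0 hC'1 a A hA hA1 hA2 hA3 (zs 0)
      hz1 hcr
    refine ⟨zs 0, cpt_of hA ha0 hc'0 hC'0 hC p1 p2 p3, p4, ?_, p5.trans h5A⟩
    refine Eq.trans ?_ hcr
    rw [hA]
    push_cast
    ring

/-- existence and properties of the critical points -/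
theorem cpdx0 : S_CPDX := cpdx Pool.Agent.W19.HTFix.task

end

end Pool.Agent.W52.AX
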