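import Pool.Agent.W719.AX.Stp

set_option autoImplicit false

namespace Pool.Agent.W52.AX

open Finset Filter Topology Metric
open Pool.Agent.W711.HT hiding XX
open Pool.Agent.W719.AR Pool.Agent.W719.AX
open scoped Real

theorem prdx (hmul : S_UXMUL) : S_PRDX := by
  intro ρ₂ τ₂
  constructor
  · refine ⟨fun k _ => if k = 0 then 1 else 0, ?_, ?_, ?_⟩
    · intro K
      refine ⟨1, ?_⟩
      filter_upwards with N p hp
      rcases Nat.eq_zero_or_pos K with hK | hK
      · subst hK
        simp
      · have h1 : ∑ k ∈ range K, (if k = 0 then (1 : ℂ) else 0) / (N : ℂ) ^ k = 1 := by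
          rw [Finset.sum_eq_single 0]
          · simp
          · intro b _ hb
            rw [if_neg hb, zero_div]
          · intro h
            exact absurd (Finset.mem_range.mpr hK) h
        rw [h1]
        have h2 : ((N : ℂ) ^ (2 * 0) * (-1) ^ (N * 0) * Complex.exp (-(N * (0 : ℂ))) * 1 - 1) = 0 := by
          simp
        rw [h2, norm_zero]
        positivity
    · intro k
      exact differentiableOn_const _
    · intro z _
      simp
  · intro m m' X Y F G A B hA hB
    refine ⟨cv A B, ?_, ?_, ?_⟩
    · have h := hmul ℂ _ _ A B (Rc ρ₂ τ₂) hA.ux hB.ux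
      have he : (fun (N : ℕ) (z : ℂ) => (N : ℂ) ^ (2 * (m + m')) * (-1) ^ (N * (m + m')) *
          Complex.exp (-(N * (F z + G z))) * (X N z * Y N z)) =
          fun (N : ℕ) (p : ℂ) => ((N : ℂ) ^ (2 * m) * (-1) ^ (N * m) *
            Complex.exp (-(N * F p)) * X N p) * ((N : ℂ) ^ (2 * m') * (-1) ^ (N * m') *
            Complex.exp (-(N * G p)) * Y N p) := by
        funext N z
        have e1 : Complex.exp (-(N * (F z + G z))) =
            Complex.exp (-(N * F z)) * Complex.exp (-(N * G z)) := by
          rw [← Complex.exp_add]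
          congr 1
          ring
        rw [e1, Nat.mul_add, Nat.mul_add, pow_add, pow_add]
        ring
      have h2 : UX (fun (N : ℕ) (z : ℂ) => (N : ℂ) ^ (2 * (m + m')) * (-1) ^ (N * (m + m')) *
          Complex.exp (-(N * (F z + G z))) * (X N z * Y N z)) (cv A B) (Rc ρ₂ τ₂) := by
        rw [he]
        exact h
      exact h2
    · intro k
      have h3 : cv A B k = fun p => ∑ i ∈ range (k + 1), A i p * B (k - i) p := rfl
      rw [h3]
      apply DifferentiableOn.fun_sum
      intro i _
      exact (hA.an i).mul (hB.an (k - i))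
    · intro z hz
      have h4 : cv A B 0 z = A 0 z * B 0 z := by
        unfold cv
        rw [Finset.sum_range_one]
      rw [h4]
      exact mul_ne_zero (hA.nz z hz) (hB.nz z hz)

end Pool.Agent.W52.AX
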